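import Pool.Agent.Work.MP_959bfa_lin.Interface3

/-! # Block HALF: existence of a good half -/

namespace Wn

open Finset

/-- the bound for the number of packed sets -/
def halfN (n M : ℕ) : ℕ := ∑ j ∈ range (4 * M + 1), n.choose j * 8 ^ j

theorem half_N_pos (n M : ℕ) : 1 ≤ halfN n M := by
  unfold halfN
  have h : n.choose 0 * 8 ^ 0 ≤ ∑ j ∈ range (4 * M + 1), n.choose j * 8 ^ j :=
    Finset.single_le_sum (f := fun j => n.choose j * 8 ^ j) (fun j _ => Nat.zero_le _)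
      (mem_range.2 (by omega))
  simpa using h

theorem half_bad (hTAIL : stmt_TAIL) (n : ℕ) (I : Finset (Fin n)) (hI : 0 < I.card) (T : ℝ)
    (hT : 1 ≤ T) :
    ((fl (univ : Finset (Finset (Fin n))) (fun B => ∃ ρ : ℝ, 0 ≤ ρ ∧ ρ ≤ 1 ∧
      ((B ∩ I).card : ℝ) ≤ (1 - ρ) * I.card / 2 ∧
      T ≤ Real.exp (ρ ^ 2 * I.card / 2))).card : ℝ) ≤ 2 ^ n / T := by
  classical
  have hI0 : (0 : ℝ) < I.card := by exact_mod_cast hI
  have hT0 : 0 < T := by linarith
  have hlog : 0 ≤ Real.log T := Real.log_nonneg hT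
  obtain ⟨ε, hε⟩ : ∃ ε : ℝ, ε = Real.sqrt (2 * Real.log T / I.card) := ⟨_, rfl⟩
  have hε0 : 0 ≤ ε := by rw [hε]; exact Real.sqrt_nonneg _
  have hε2 : ε ^ 2 * I.card / 2 = Real.log T := by
    rw [hε, Real.sq_sqrt (by positivity)]
    field_simp
  have hle : ∀ ρ : ℝ, 0 ≤ ρ → T ≤ Real.exp (ρ ^ 2 * I.card / 2) → ε ≤ ρ := by
    intro ρ hρ h
    have h1 : Real.log T ≤ ρ ^ 2 * I.card / 2 := by
      rw [Real.log_le_iff_le_exp hT0]
      exact h
    rw [hε]
    apply Real.sqrt_le_iff.2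
    refine ⟨hρ, ?_⟩
    rw [div_le_iff₀ hI0]
    linarith
  by_cases h1 : ε ≤ 1
  · have h2 := hTAIL n I ε hε0 h1
    have h3 : 2 ^ n * Real.exp (-(ε ^ 2 * I.card / 2)) = 2 ^ n / T := by
      rw [hε2, Real.exp_neg, Real.exp_log hT0, div_eq_mul_inv]
    rw [h3] at h2
    refine le_trans ?_ h2
    have h4 : (fl (univ : Finset (Finset (Fin n))) (fun B => ∃ ρ : ℝ, 0 ≤ ρ ∧ ρ ≤ 1 ∧
      ((B ∩ I).card : ℝ) ≤ (1 - ρ) * I.card / 2 ∧
      T ≤ Real.exp (ρ ^ 2 * I.card / 2))) ⊆ (fl (univ : Finset (Finset (Fin n)))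
      (fun B => ((B ∩ I).card : ℝ) ≤ (1 - ε) * I.card / 2)) := by
      intro B hB
      rw [mem_fl] at hB ⊢
      obtain ⟨ρ, hρ0, _, hρ2, hρ3⟩ := hB.2
      refine ⟨mem_univ _, hρ2.trans ?_⟩
      have h5 := hle ρ hρ0 hρ3
      have h6 : (1 - ρ) * (I.card : ℝ) ≤ (1 - ε) * I.card :=
        mul_le_mul_of_nonneg_right (by linarith) hI0.le
      linarith
    exact_mod_cast Finset.card_le_card h4
  · have h4 : (fl (univ : Finset (Finset (Fin n))) (fun B => ∃ ρ : ℝ, 0 ≤ ρ ∧ ρ ≤ 1 ∧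
      ((B ∩ I).card : ℝ) ≤ (1 - ρ) * I.card / 2 ∧
      T ≤ Real.exp (ρ ^ 2 * I.card / 2))) = ∅ := by
      rw [Finset.eq_empty_iff_forall_notMem]
      intro B hB
      rw [mem_fl] at hB
      obtain ⟨ρ, hρ0, hρ1, _, hρ3⟩ := hB.2
      have h5 := hle ρ hρ0 hρ3
      exact h1 (h5.trans hρ1)
    rw [h4, Finset.card_empty, Nat.cast_zero]
    positivity

theorem half_geo (n : ℕ) : ∑ M ∈ Icc 1 n, (1 / 4 : ℝ) ^ M = (1 - (1 / 4 : ℝ) ^ n) / 3 := by
  induction n with
  | zero => simp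
  | succ n ih =>
    rw [Finset.sum_Icc_succ_top (by omega), ih]
    ring

theorem half_ex (hCNT : stmt_CNT) (hTAIL : stmt_TAIL) (n : ℕ) (P : Fin n → ℝ × ℝ)
    (hsrt : Srt P) : ∃ B : Finset (Fin n), 2 * B.card ≤ n ∧ ∀ M : ℕ, 1 ≤ M → M ≤ n →
      ∀ I : Finset (Fin n), IsPack P M I → 0 < I.card → ∀ ρ : ℝ, 0 ≤ ρ → ρ ≤ 1 →
      ((B ∩ I).card : ℝ) ≤ (1 - ρ) * I.card / 2 →
      Real.exp (ρ ^ 2 * I.card / 2) < (halfN n M : ℝ) * 4 ^ M := by
  classical
  by_contra hno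
  push Not at hno
  set G : Finset (Finset (Fin n)) := univ.filter (fun B => 2 * B.card ≤ n) with hG
  set H : Finset (Finset (Fin n)) := univ.filter (fun B => ¬ 2 * B.card ≤ n) with hH
  have hGH : G.card + H.card = 2 ^ n := by
    have h1 := Finset.card_filter_add_card_filter_not
      (s := (univ : Finset (Finset (Fin n)))) (fun B : Finset (Fin n) => 2 * B.card ≤ n)
    rw [hG, hH, h1]
    simp
  have hHG : H.card ≤ G.card := by
    apply Finset.card_le_card_of_injOn (fun B => Bᶜ)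
    · intro B hB
      rw [hH, Finset.mem_coe, Finset.mem_filter] at hB
      rw [hG, Finset.mem_coe, Finset.mem_filter]
      refine ⟨mem_univ _, ?_⟩
      have h1 := Finset.card_add_card_compl B
      rw [Fintype.card_fin] at h1
      have h2 := hB.2
      change 2 * (Bᶜ).card ≤ n
      omega
    · intro B _ B' _ hBB
      exact compl_injective hBB
  set X : ℕ → Finset (Fin n) → Finset (Finset (Fin n)) := fun M I =>
    fl univ (fun B => ∃ ρ : ℝ, 0 ≤ ρ ∧ ρ ≤ 1 ∧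
      ((B ∩ I).card : ℝ) ≤ (1 - ρ) * I.card / 2 ∧
      (halfN n M : ℝ) * 4 ^ M ≤ Real.exp (ρ ^ 2 * I.card / 2)) with hX
  set W : ℕ → Finset (Finset (Fin n)) := fun M =>
    fl univ (fun I => IsPack P M I ∧ 0 < I.card) with hW
  have hcov : G ⊆ (Icc 1 n).biUnion (fun M => (W M).biUnion (fun I => X M I)) := by
    intro B hB
    rw [hG, Finset.mem_filter] at hB
    obtain ⟨M, hM1, hMn, I, hI1, hI2, ρ, h1, h2, h3, h4⟩ := hno B hB.2
    refine mem_biUnion.2 ⟨M, mem_Icc.2 ⟨hM1, hMn⟩, mem_biUnion.2 ⟨I, ?_, ?_⟩⟩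
    · rw [hW]
      exact mem_fl.2 ⟨mem_univ _, hI1, hI2⟩
    · rw [hX]
      exact mem_fl.2 ⟨mem_univ _, ρ, h1, h2, h3, h4⟩
  have h1 : (G.card : ℝ) ≤ ∑ M ∈ Icc 1 n, ∑ I ∈ W M, ((X M I).card : ℝ) := by
    have h2 := (Finset.card_le_card hcov).trans Finset.card_biUnion_le
    have h3 : ∀ M ∈ Icc 1 n, ((W M).biUnion (fun I => X M I)).card ≤ ∑ I ∈ W M, (X M I).card :=
      fun M _ => Finset.card_biUnion_le
    have h4 := h2.trans (Finset.sum_le_sum h3)
    exact_mod_cast h4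
  have h2 : ∀ M ∈ Icc 1 n, ∑ I ∈ W M, ((X M I).card : ℝ) ≤ 2 ^ n * (1 / 4 : ℝ) ^ M := by
    intro M hM
    have hN : (1 : ℝ) ≤ (halfN n M : ℝ) := by exact_mod_cast half_N_pos n M
    have h4M : (1 : ℝ) ≤ 4 ^ M := one_le_pow₀ (by norm_num)
    have hT : (1 : ℝ) ≤ (halfN n M : ℝ) * 4 ^ M := by nlinarith
    have h3 : ∀ I ∈ W M, ((X M I).card : ℝ) ≤ 2 ^ n / ((halfN n M : ℝ) * 4 ^ M) := by
      intro I hI
      rw [hW] at hI
      exact half_bad hTAIL n I (mem_fl.1 hI).2.2 _ hT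
    have h4 : (W M).card ≤ halfN n M := by
      refine le_trans (Finset.card_le_card ?_) (hCNT n M P hsrt)
      intro I hI
      rw [hW] at hI
      exact mem_fl.2 ⟨mem_univ _, (mem_fl.1 hI).2.1⟩
    have h5 : ((W M).card : ℝ) ≤ (halfN n M : ℝ) := by exact_mod_cast h4
    calc ∑ I ∈ W M, ((X M I).card : ℝ)
        ≤ ∑ _I ∈ W M, (2 ^ n / ((halfN n M : ℝ) * 4 ^ M) : ℝ) := Finset.sum_le_sum h3
      _ = (W M).card * (2 ^ n / ((halfN n M : ℝ) * 4 ^ M)) := by
          rw [Finset.sum_const, nsmul_eq_mul]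
      _ ≤ (halfN n M : ℝ) * (2 ^ n / ((halfN n M : ℝ) * 4 ^ M)) :=
          mul_le_mul_of_nonneg_right h5 (by positivity)
      _ = 2 ^ n * (1 / 4 : ℝ) ^ M := by
          have hne : (halfN n M : ℝ) ≠ 0 := by
            have : (0 : ℝ) < (halfN n M : ℝ) := by linarith
            exact this.ne'
          rw [one_div, inv_pow]
          field_simp
  have h3 : (G.card : ℝ) ≤ 2 ^ n * ((1 - (1 / 4 : ℝ) ^ n) / 3) := by
    rw [← half_geo, Finset.mul_sum]
    exact h1.trans (Finset.sum_le_sum h2)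
  have h2n : (0 : ℝ) < 2 ^ n := by positivity
  have h4 : (2 : ℝ) ^ n ≤ 2 * G.card := by
    have h5 : 2 ^ n ≤ 2 * G.card := by omega
    exact_mod_cast h5
  have h5 : (0 : ℝ) < (1 / 4 : ℝ) ^ n := by positivity
  nlinarith

/-- the conclusion from the bound -/
theorem half_fin (hCHO : stmt_CHO) (n M : ℕ) (x : ℝ) (hM : 1 ≤ M) (hMn : M ≤ n)
    (h : (Real.exp x) ^ (4 * M) < (halfN n M : ℝ) * 4 ^ M) : Real.exp x ≤ 16 * n / M := by
  by_contra hcon
  push Not at hcon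
  have hM0 : (0 : ℝ) < M := by exact_mod_cast hM
  have hn0 : (0 : ℝ) < n := by
    have : 0 < n := by omega
    exact_mod_cast this
  have hMn' : (M : ℝ) ≤ n := by exact_mod_cast hMn
  have h4 : (4 : ℝ) ^ M ≤ (3 / 2 : ℝ) ^ (4 * M) := by
    rw [pow_mul]
    exact pow_le_pow_left₀ (by norm_num) (by norm_num) M
  have h5 : (halfN n M : ℝ) ≤ (9 * n / M) ^ (4 * M) := by
    by_cases h4M : 4 * M ≤ n
    · have h6 := hCHO n (4 * M) (by omega) h4M
      have h7 : (8 * Real.exp 1 * n / ((4 * M : ℕ) : ℝ)) ≤ 9 * n / M := by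
        push_cast
        have he : Real.exp 1 ≤ 3 := by
          have := Real.exp_one_lt_d9
          linarith
        rw [div_le_div_iff₀ (by positivity) hM0]
        have h8 : 0 < (n : ℝ) * M := by positivity
        nlinarith
      refine h6.trans ?_
      exact pow_le_pow_left₀ (by positivity) h7 _
    · have h6 : halfN n M = 9 ^ n := by
        unfold halfN
        have h7 : ∑ j ∈ range (n + 1), n.choose j * 8 ^ j = 9 ^ n := by
          have h8 := add_pow (8 : ℕ) 1 n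
          simp only [one_pow, mul_one] at h8
          rw [show (9 : ℕ) = 8 + 1 by norm_num, h8]
          exact Finset.sum_congr rfl (fun j _ => mul_comm _ _)
        rw [← h7]
        symm
        apply Finset.sum_subset
        · intro j hj
          rw [mem_range] at hj ⊢
          omega
        · intro j _ hj
          rw [mem_range] at hj
          rw [Nat.choose_eq_zero_of_lt (by omega), zero_mul]
      rw [h6]
      push_cast
      have h7 : (9 : ℝ) ^ n ≤ 9 ^ (4 * M) := pow_le_pow_right₀ (by norm_num) (by omega)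
      refine h7.trans (pow_le_pow_left₀ (by norm_num) ?_ _)
      rw [le_div_iff₀ hM0]
      linarith
  have h6 : (Real.exp x) ^ (4 * M) < (9 * n / M * (3 / 2)) ^ (4 * M) := by
    rw [mul_pow]
    refine h.trans_le ?_
    exact mul_le_mul h5 h4 (by positivity) (by positivity)
  have h7 : 9 * (n : ℝ) / M * (3 / 2) ≤ Real.exp x := by
    refine le_trans ?_ hcon.le
    have h8 : 0 < (n : ℝ) / M := by positivity
    have h9 : 9 * (n : ℝ) / M * (3 / 2) = 27 / 2 * ((n : ℝ) / M) := by ring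
    have h10 : 16 * (n : ℝ) / M = 16 * ((n : ℝ) / M) := by ring
    rw [h9, h10]
    linarith
  have h8 := pow_le_pow_left₀ (by positivity) h7 (4 * M)
  linarith

theorem HALF (hCNT : stmt_CNT) (hTAIL : stmt_TAIL) (hCHO : stmt_CHO) : stmt_HALF := by
  classical
  intro n P hsrt
  obtain ⟨B, hB, hgood⟩ := half_ex hCNT hTAIL n P hsrt
  refine ⟨B, hB, ?_⟩
  intro M Q s ρ hdj hρ0 hρ1 hs hQ
  by_cases hM0 : M = 0
  · rw [hM0]
    simp only [Nat.cast_zero]
    positivity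
  have hM1 : 1 ≤ M := by omega
  have hMr : (0 : ℝ) < M := by exact_mod_cast hM1
  set I : Finset (Fin n) := univ.biUnion (fun a : Fin M => inds P (Q a)) with hI
  have hdisj : ∀ a ∈ (univ : Finset (Fin M)), ∀ b ∈ (univ : Finset (Fin M)), a ≠ b →
      Disjoint (inds P (Q a)) (inds P (Q b)) := by
    intro a _ b _ hab
    rw [Finset.disjoint_left]
    intro i hia hib
    unfold inds at hia hib
    rw [mem_fl] at hia hib
    exact hdj a b hab _ _ ⟨hia.2, hib.2⟩
  have hcard : I.card = ∑ a : Fin M, (inds P (Q a)).card := by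
    apply Finset.card_biUnion
    exact hdisj
  have hcardB : (B ∩ I).card = ∑ a : Fin M, (inds P (Q a) ∩ B).card := by
    have h1 : B ∩ I = univ.biUnion (fun a : Fin M => inds P (Q a) ∩ B) := by
      ext i
      rw [mem_inter, hI, mem_biUnion, mem_biUnion]
      constructor
      · rintro ⟨h1, a, h2, h3⟩
        exact ⟨a, h2, mem_inter.2 ⟨h3, h1⟩⟩
      · rintro ⟨a, h2, h3⟩
        exact ⟨(mem_inter.1 h3).2, a, h2, (mem_inter.1 h3).1⟩
    rw [h1]
    apply Finset.card_biUnion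
    intro a ha b hb hab
    exact (hdisj a ha b hb hab).mono inter_subset_left inter_subset_left
  have hpos : ∀ a, 1 ≤ (inds P (Q a)).card := by
    intro a
    have h1 : (1 : ℝ) ≤ ((inds P (Q a)).card : ℝ) := hs.trans (hQ a).1
    exact_mod_cast h1
  have hpack : IsPack P M I := by
    refine ⟨Q, hdj, fun a => Finset.card_pos.1 (hpos a), ?_⟩
    intro i
    rw [hI, Finset.mem_biUnion]
    exact ⟨fun ⟨a, _, ha⟩ => ⟨a, ha⟩, fun ⟨a, ha⟩ => ⟨a, mem_univ _, ha⟩⟩
  have hMI : M ≤ I.card := by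
    rw [hcard]
    calc M = ∑ _a : Fin M, 1 := by simp
      _ ≤ _ := Finset.sum_le_sum fun a _ => hpos a
  have hIn : I.card ≤ n := (Finset.card_le_univ _).trans (by simp)
  have hIs : (M : ℝ) * s ≤ I.card := by
    rw [hcard]
    push_cast
    calc (M : ℝ) * s = ∑ _a : Fin M, s := by simp
      _ ≤ _ := Finset.sum_le_sum fun a _ => (hQ a).1
  have hBI : ((B ∩ I).card : ℝ) ≤ (1 - ρ) * I.card / 2 := by
    have h1 : ∑ a : Fin M, ρ * ((inds P (Q a)).card : ℝ) ≤
        ∑ a : Fin M, (((inds P (Q a)).card : ℝ) - 2 * ((inds P (Q a) ∩ B).card : ℝ)) :=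
      Finset.sum_le_sum fun a _ => (hQ a).2
    rw [← Finset.mul_sum, Finset.sum_sub_distrib, ← Finset.mul_sum] at h1
    have h2 : (I.card : ℝ) = ∑ a : Fin M, ((inds P (Q a)).card : ℝ) := by
      rw [hcard]
      push_cast
      rfl
    have h3 : ((B ∩ I).card : ℝ) = ∑ a : Fin M, ((inds P (Q a) ∩ B).card : ℝ) := by
      rw [hcardB]
      push_cast
      rfl
    rw [← h2, ← h3] at h1
    linarith
  have h1 := hgood M hM1 (by omega) I hpack (by omega) ρ hρ0.le hρ1 hBI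
  have h2 : (Real.exp (ρ ^ 2 * s / 8)) ^ (4 * M) < (halfN n M : ℝ) * 4 ^ M := by
    refine lt_of_le_of_lt ?_ h1
    rw [← Real.exp_nat_mul]
    apply Real.exp_le_exp.2
    push_cast
    have h3 : ρ ^ 2 * ((M : ℝ) * s) ≤ ρ ^ 2 * I.card := mul_le_mul_of_nonneg_left hIs (by positivity)
    linarith
  have h3 := half_fin hCHO n M _ hM1 (by omega) h2
  rw [le_div_iff₀ hMr] at h3
  have h4 : 0 < Real.exp (ρ ^ 2 * s / 8) := Real.exp_pos _
  rw [Real.exp_neg, ← div_eq_mul_inv, le_div_iff₀ h4]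
  linarith

end Wn
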