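import Pool.Agent.Work.MP_959bfa_lin.Interface3

namespace Wn

open Finset

theorem one3_sub {n : ℕ} (P : Fin n → ℝ × ℝ) (B : Finset (Fin n)) :
    ∃ P' : Fin B.card → ℝ × ℝ, ∀ R : Bx, (inds P' R).card = ((inds P R) ∩ B).card := by
  classical
  refine ⟨fun i => P (B.equivFin.symm i), fun R => ?_⟩
  have hinj : Function.Injective (fun i : Fin B.card => ((B.equivFin.symm i : B) : Fin n)) :=
    fun i j h => B.equivFin.symm.injective (Subtype.ext h)
  rw [← Finset.card_image_of_injective (inds _ R) hinj]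
  congr 1
  ext x
  simp only [mem_image, mem_inter, inds, mem_fl, mem_univ, true_and]
  constructor
  · rintro ⟨i, hi, rfl⟩
    exact ⟨hi, (B.equivFin.symm i).2⟩
  · rintro ⟨hx, hB⟩
    refine ⟨B.equivFin ⟨x, hB⟩, ?_, ?_⟩
    · simpa using hx
    · simp

theorem one3_all {n : ℕ} (P : Fin n → ℝ × ℝ) : ∃ Z : Finset (ℝ × ℝ), Z.card ≤ n ∧
    ∀ R : Bx, 1 ≤ (inds P R).card → ∃ z ∈ Z, In R z.1 z.2 := by
  classical
  refine ⟨univ.image P, card_image_le.trans (by simp), fun R h => ?_⟩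
  obtain ⟨i, hi⟩ := card_pos.1 h
  exact ⟨P i, mem_image_of_mem _ (mem_univ i), (mem_fl.1 hi).2⟩

theorem one3_claim (hSORT : stmt_SORT) (hHALF : stmt_HALF) (hGAP : stmt_GAP3)
    (hPARC : stmt_PARC) (F μ k0 C : ℝ) (hF : 1 ≤ F) (hμ : 1 ≤ μ) (hk3 : 1000 ≤ k0) (hC : 1 ≤ C)
    (hFRA : ∀ (n t w κ : ℕ) (P : Fin n → ℝ × ℝ) (B : Finset (Fin n)) (ε : ℝ)
      (R : Fin t → Bx), Good P B → 1 ≤ w → 1 ≤ κ → 0 < ε → ε ≤ 1 → (∀ i, Ne (R i)) →
      DepthLe R univ w →
      (∀ i, κ ≤ (inds P (R i)).card ∧ ε * ((inds P (R i)).card : ℝ) ≤ dev P B (R i)) →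
      (t : ℝ) ≤ C * n * (1 / ε) ^ 13 * Real.exp (-(ε ^ 2 * κ / 256)) / κ * w)
    (hB : ∀ κ θ : ℝ, k0 ≤ κ → θ = Real.sqrt (Real.sqrt (k0 / κ)) →
      7 * F * (C * (1 / (θ / 32)) ^ 13 * Real.exp (-((θ / 32) ^ 2 * κ / 256))) ≤ k0 * θ / 8)
    (hN : Nets F (2 * μ)) :
    ∀ κ : ℕ, ∀ (n : ℕ) (P : Fin n → ℝ × ℝ), 31 / 32 * k0 ≤ κ →
      (n : ℝ) * (2 - Real.sqrt (Real.sqrt (k0 / κ))) ≤ 2 * μ * κ →
      ∃ Z : Finset (ℝ × ℝ),
        (Z.card : ℝ) ≤ 5 / 2 * k0 * (2 - Real.sqrt (Real.sqrt (k0 / κ))) * (n / κ) ∧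
        ∀ R : Bx, κ ≤ (inds P R).card → ∃ z ∈ Z, In R z.1 z.2 := by
  classical
  intro κ
  induction κ using Nat.strong_induction_on with
  | _ κ IH =>
    intro n P₀ hκ0 hn
    have hk0 : 0 < k0 := by linarith
    have hκpos : (0 : ℝ) < κ := by linarith
    have hκ1 : 1 ≤ κ := by
      have h : (0 : ℝ) < κ := hκpos
      exact Nat.one_le_iff_ne_zero.2 (fun h0 => by rw [h0] at h; simp at h)
    -- small κ
    by_cases hsmall : (κ : ℝ) < 2 * k0
    · obtain ⟨Z, hZ1, hZ2⟩ := one3_all P₀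
      refine ⟨Z, ?_, fun R hR => hZ2 R (hκ1.trans hR)⟩
      have hx : 0 < k0 / κ := div_pos hk0 hκpos
      have hth : Real.sqrt (Real.sqrt (k0 / κ)) ≤ 11 / 10 := by
        rw [show (11 / 10 : ℝ) = Real.sqrt (Real.sqrt ((11 / 10) ^ 4)) by
          rw [show ((11 : ℝ) / 10) ^ 4 = ((11 / 10) ^ 2) ^ 2 by norm_num,
            Real.sqrt_sq (by norm_num), Real.sqrt_sq (by norm_num)]]
        apply Real.sqrt_le_sqrt
        apply Real.sqrt_le_sqrt
        rw [div_le_iff₀ hκpos]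
        have h1 : (1 : ℝ) ≤ (11 / 10) ^ 4 * (31 / 32) := by norm_num
        have h2 : ((11 : ℝ) / 10) ^ 4 * (31 / 32 * k0) ≤ (11 / 10) ^ 4 * κ :=
          mul_le_mul_of_nonneg_left hκ0 (by norm_num)
        have h3 : 1 * k0 ≤ (11 / 10) ^ 4 * (31 / 32) * k0 :=
          mul_le_mul_of_nonneg_right h1 hk0.le
        linarith
      have hn0 : (0 : ℝ) ≤ n := Nat.cast_nonneg n
      have h4 : (Z.card : ℝ) ≤ n := by exact_mod_cast hZ1
      refine h4.trans ?_
      have h5 : (1 : ℝ) ≤ 5 / 2 * k0 * (2 - Real.sqrt (Real.sqrt (k0 / κ))) / κ := by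
        rw [le_div_iff₀ hκpos]
        have h6 : 5 / 2 * k0 * (9 / 10) ≤ 5 / 2 * k0 * (2 - Real.sqrt (Real.sqrt (k0 / κ))) :=
          mul_le_mul_of_nonneg_left (by linarith) (by linarith)
        linarith
      calc (n : ℝ) = 1 * n := (one_mul _).symm
        _ ≤ 5 / 2 * k0 * (2 - Real.sqrt (Real.sqrt (k0 / κ))) / κ * n :=
          mul_le_mul_of_nonneg_right h5 hn0
        _ = _ := by ring
    · push Not at hsmall
      obtain ⟨σ, hsrt, hσ⟩ := hSORT n P₀
      set P := P₀ ∘ σ with hP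
      set θ := Real.sqrt (Real.sqrt (k0 / κ)) with hθ
      -- the empty case
      by_cases hn0 : n = 0
      · refine ⟨∅, ?_, ?_⟩
        · rw [hn0]
          simp
        · intro R hR
          have h1 : (inds P₀ R).card ≤ n := (Finset.card_le_univ _).trans (by simp)
          omega
      have hn1 : 1 ≤ n := Nat.one_le_iff_ne_zero.2 hn0
      have hnpos : (0 : ℝ) < n := by exact_mod_cast hn1
      set κ' : ℕ := ⌈(1 - θ / 32) * κ / 2⌉₊ with hκ'
      have hx : 0 < k0 / κ := div_pos hk0 hκpos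
      have hθnn : 0 ≤ θ := Real.sqrt_nonneg _
      have hκ'low : (1 - θ / 32) * κ / 2 ≤ κ' := Nat.le_ceil _
      have hθle : θ ≤ 1 := by
        rw [hθ]
        have h1 : k0 / κ ≤ 1 := by
          rw [div_le_one hκpos]
          linarith
        have h2 : Real.sqrt (k0 / κ) ≤ 1 := by
          rw [← Real.sqrt_one]
          exact Real.sqrt_le_sqrt h1
        rw [← Real.sqrt_one]
        exact Real.sqrt_le_sqrt h2
      have hκ'up : (κ' : ℝ) ≤ κ / 2 + 1 := by
        have h1 : 0 ≤ (1 - θ / 32) * κ / 2 := by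
          have h2 : 0 ≤ (1 - θ / 32) * κ := mul_nonneg (by linarith) hκpos.le
          linarith
        have h3 := (Nat.ceil_lt_add_one h1).le
        have h4 : (1 - θ / 32) * κ ≤ 1 * κ := mul_le_mul_of_nonneg_right (by linarith) hκpos.le
        have h5 : (1 - θ / 32) * κ / 2 + 1 ≤ κ / 2 + 1 := by linarith
        exact h3.trans h5
      obtain ⟨hθpos, _, hθ'2, hmain, hκ'k0, hκ'lt⟩ :=
        hPARC k0 κ κ' θ (Real.sqrt (Real.sqrt (k0 / κ'))) hk3 hsmall hκ'up hκ'low rfl rfl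
      have hκ'pos : (0 : ℝ) < κ' := by linarith
      -- the half
      obtain ⟨B, hBn, hgood⟩ := hHALF n P hsrt
      obtain ⟨P', hP'⟩ := one3_sub P B
      have hBn' : (B.card : ℝ) ≤ n / 2 := by
        have h1 : ((2 * B.card : ℕ) : ℝ) ≤ n := by exact_mod_cast hBn
        push_cast at h1
        linarith
      have hf1 : 0 < 1 - θ / 32 := by linarith
      -- induction hypothesis
      have hIH : ∃ Z : Finset (ℝ × ℝ),
          (Z.card : ℝ) ≤ 5 / 2 * k0 * (2 - Real.sqrt (Real.sqrt (k0 / κ'))) * (B.card / κ') ∧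
          ∀ R : Bx, κ' ≤ (inds P' R).card → ∃ z ∈ Z, In R z.1 z.2 := by
        refine IH κ' (by exact_mod_cast hκ'lt) B.card P' hκ'k0 ?_
        calc (B.card : ℝ) * (2 - Real.sqrt (Real.sqrt (k0 / κ')))
            ≤ n / 2 * (2 - Real.sqrt (Real.sqrt (k0 / κ'))) :=
              mul_le_mul_of_nonneg_right hBn' hθ'2
          _ ≤ n / 2 * ((1 - θ / 32) * (2 - (11 / 10) * θ)) :=
              mul_le_mul_of_nonneg_left hmain (by linarith)
          _ ≤ n / 2 * ((1 - θ / 32) * (2 - θ)) := by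
              apply mul_le_mul_of_nonneg_left _ (by linarith)
              apply mul_le_mul_of_nonneg_left _ hf1.le
              linarith
          _ = (1 - θ / 32) * (n * (2 - θ)) / 2 := by ring
          _ ≤ (1 - θ / 32) * (2 * μ * κ) / 2 := by
              have h1 := mul_le_mul_of_nonneg_left hn hf1.le
              linarith
          _ = 2 * μ * ((1 - θ / 32) * κ / 2) := by ring
          _ ≤ 2 * μ * κ' := mul_le_mul_of_nonneg_left hκ'low (by linarith)
      obtain ⟨Z1, hZ1, hZ1'⟩ := hIH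
      have hZ1b : (Z1.card : ℝ) ≤ 5 / 2 * k0 * (2 - 11 / 10 * θ) * (n / κ) := by
        refine hZ1.trans ?_
        have h1 : (B.card : ℝ) / κ' ≤ (n / 2) / ((1 - θ / 32) * κ / 2) := by
          apply div_le_div₀ (by linarith) hBn' _ hκ'low
          have h2 : 0 < (1 - θ / 32) * κ := mul_pos hf1 hκpos
          linarith
        have h3 : (0 : ℝ) ≤ (n / 2) / ((1 - θ / 32) * κ / 2) := by
          apply div_nonneg (by linarith)
          have h2 : 0 < (1 - θ / 32) * κ := mul_pos hf1 hκpos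
          linarith
        calc 5 / 2 * k0 * (2 - Real.sqrt (Real.sqrt (k0 / κ'))) * (B.card / κ')
            ≤ 5 / 2 * k0 * (2 - Real.sqrt (Real.sqrt (k0 / κ'))) *
                ((n / 2) / ((1 - θ / 32) * κ / 2)) :=
              mul_le_mul_of_nonneg_left h1 (mul_nonneg (by linarith) hθ'2)
          _ ≤ 5 / 2 * k0 * ((1 - θ / 32) * (2 - (11 / 10) * θ)) *
                ((n / 2) / ((1 - θ / 32) * κ / 2)) := by
              apply mul_le_mul_of_nonneg_right _ h3
              exact mul_le_mul_of_nonneg_left hmain (by linarith)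
          _ = 5 / 2 * k0 * (2 - 11 / 10 * θ) * (n / κ) := by
              have hne : (1 - θ / 32) ≠ 0 := hf1.ne'
              have hne2 : (32 - θ) ≠ 0 := by
                have h4 : 0 < 32 - θ := by linarith
                exact h4.ne'
              field_simp
      -- the gap
      have hgap : ∃ Z2 : Finset (ℝ × ℝ), (Z2.card : ℝ) ≤ k0 * θ / 8 * (n / κ) ∧
          ∀ R : Bx, (κ ≤ (inds P R).card ∧
            (((inds P R) ∩ B).card : ℝ) < (1 - θ / 32) * κ / 2) → ∃ z ∈ Z2, In R z.1 z.2 := by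
        have hnμ : (n : ℝ) ≤ 2 * μ * κ := by
          refine le_trans ?_ hn
          have h1 : (n : ℝ) * 1 ≤ n * (2 - θ) :=
            mul_le_mul_of_nonneg_left (by linarith) hnpos.le
          linarith
        have hε0 : 0 < θ / 32 := by linarith
        have hδ : 0 ≤ C * n * (1 / (θ / 32)) ^ 13 * Real.exp (-((θ / 32) ^ 2 * κ / 256)) / κ := by
          have hC0 : 0 ≤ C := by linarith
          positivity
        obtain ⟨Z2, hZ2, hZ2'⟩ := hGAP F (2 * μ) hF hN n κ P hκ1 hnμ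
          (fun I => κ ≤ I.card ∧ ((I ∩ B).card : ℝ) < (1 - θ / 32) * κ / 2)
          (fun I hI => hI.1)
          (C * n * (1 / (θ / 32)) ^ 13 * Real.exp (-((θ / 32) ^ 2 * κ / 256)) / κ) hδ (by
            intro w t R hw hR hD
            refine hFRA n t w κ P B (θ / 32) R hgood hw hκ1 hε0 (by linarith)
              (fun i => (hR i).1) hD (fun i => ⟨(hR i).2.1, ?_⟩)
            have h1 : (κ : ℝ) ≤ ((inds P (R i)).card : ℝ) := by exact_mod_cast (hR i).2.1
            have h2 := (hR i).2.2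
            have h3 : (1 - θ / 32) * κ ≤ (1 - θ / 32) * ((inds P (R i)).card : ℝ) :=
              mul_le_mul_of_nonneg_left h1 hf1.le
            unfold dev
            linarith)
        refine ⟨Z2, hZ2.trans ?_, hZ2'⟩
        calc 7 * F * (C * n * (1 / (θ / 32)) ^ 13 * Real.exp (-((θ / 32) ^ 2 * κ / 256)) / κ)
            = 7 * F * (C * (1 / (θ / 32)) ^ 13 * Real.exp (-((θ / 32) ^ 2 * κ / 256))) *
                (n / κ) := by ring
          _ ≤ k0 * θ / 8 * (n / κ) :=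
              mul_le_mul_of_nonneg_right (hB κ θ (by linarith) rfl) (by positivity)
      obtain ⟨Z2, hZ2, hZ2'⟩ := hgap
      refine ⟨Z1 ∪ Z2, ?_, ?_⟩
      · have h1 : ((Z1 ∪ Z2).card : ℝ) ≤ Z1.card + Z2.card := by
          exact_mod_cast Finset.card_union_le Z1 Z2
        have h2 : (0 : ℝ) ≤ n / κ := by positivity
        have h3 : 5 / 2 * k0 * (2 - 11 / 10 * θ) * (n / κ) + k0 * θ / 8 * (n / κ) ≤
            5 / 2 * k0 * (2 - θ) * (n / κ) := by
          rw [← add_mul]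
          apply mul_le_mul_of_nonneg_right _ h2
          have h4 : 0 ≤ k0 * θ := by positivity
          nlinarith
        linarith
      · intro R hR
        have hR' : κ ≤ (inds P R).card := by
          rw [hσ R]
          exact hR
        by_cases hc : (((inds P R) ∩ B).card : ℝ) < (1 - θ / 32) * κ / 2
        · obtain ⟨z, hz, hz2⟩ := hZ2' R ⟨hR', hc⟩
          exact ⟨z, mem_union_right _ hz, hz2⟩
        · push Not at hc
          have h1 : κ' ≤ (inds P' R).card := by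
            rw [hP' R]
            exact Nat.ceil_le.2 hc
          obtain ⟨z, hz, hz2⟩ := hZ1' R h1
          exact ⟨z, mem_union_left _ hz, hz2⟩

theorem ONE3 (hSORT : stmt_SORT) (hHALF : stmt_HALF) (hFRA : stmt_FRA) (hGAP3 : stmt_GAP3)
    (hPAR3 : stmt_PAR3) (hPARC : stmt_PARC) : stmt_ONE3 := by
  obtain ⟨C, hC1, hFRA⟩ := hFRA
  obtain ⟨K, hK, hB⟩ := hPAR3 C hC1
  refine ⟨max K 1000, le_max_of_le_right (by norm_num), ?_⟩
  intro F μ k0 hF hμ hk0 hFk hN
  have hk1 : K ≤ k0 := (le_max_left _ _).trans hk0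
  have hk3 : 1000 ≤ k0 := (le_max_right _ _).trans hk0
  have hk0pos : 0 < k0 := by linarith
  have hFk2 : K * Real.log F ≤ k0 :=
    (mul_le_mul_of_nonneg_right (le_max_left _ _) (Real.log_nonneg hF)).trans hFk
  have claim := one3_claim hSORT hHALF hGAP3 hPARC F μ k0 C hF hμ hk3 hC1 hFRA
    (fun κ θ h1 h2 => hB F k0 κ θ hF hk1 h1 hFk2 h2) hN
  intro n k P hk hn
  have hkpos : (0 : ℝ) < k := by exact_mod_cast hk
  have hnn : (0 : ℝ) ≤ n := Nat.cast_nonneg n
  by_cases hbig : 31 / 32 * k0 ≤ k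
  · have hth : 0 ≤ Real.sqrt (Real.sqrt (k0 / k)) := Real.sqrt_nonneg _
    obtain ⟨Z, hZ1, hZ2⟩ := claim k n P hbig (by
      have h1 : (n : ℝ) * (2 - Real.sqrt (Real.sqrt (k0 / k))) ≤ n * 2 :=
        mul_le_mul_of_nonneg_left (by linarith) hnn
      linarith)
    refine ⟨Z, hZ1.trans ?_, hZ2⟩
    apply mul_le_mul_of_nonneg_right _ (div_nonneg hnn hkpos.le)
    have h2 : 5 / 2 * k0 * (2 - Real.sqrt (Real.sqrt (k0 / k))) ≤ 5 / 2 * k0 * 2 :=
      mul_le_mul_of_nonneg_left (by linarith) (by linarith)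
    linarith
  · push Not at hbig
    obtain ⟨Z, hZ1, hZ2⟩ := one3_all P
    refine ⟨Z, ?_, fun R hR => hZ2 R (hk.trans hR)⟩
    have h1 : (Z.card : ℝ) ≤ n := by exact_mod_cast hZ1
    refine h1.trans ?_
    rw [← mul_div_assoc, le_div_iff₀ hkpos]
    have h2 : (n : ℝ) * k ≤ n * (6 * k0) := mul_le_mul_of_nonneg_left (by linarith) hnn
    linarith

end Wn
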