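import Pool.Agent.Work.MP_959bfa_wn.Interface

namespace Wn

open Finset

theorem parc_pow4 (x : ℝ) (hx : 0 ≤ x) : (Real.sqrt (Real.sqrt x)) ^ 4 = x := by
  have h1 : (Real.sqrt (Real.sqrt x)) ^ 2 = Real.sqrt x := Real.sq_sqrt (Real.sqrt_nonneg x)
  have h2 : (Real.sqrt x) ^ 2 = x := Real.sq_sqrt hx
  calc (Real.sqrt (Real.sqrt x)) ^ 4 = ((Real.sqrt (Real.sqrt x)) ^ 2) ^ 2 := by ring
    _ = x := by rw [h1, h2]

theorem PARC : stmt_PARC := by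
  intro k0 κ κ' θ θ' h0 h1 h2 h3 hθ hθ'
  have hk0 : 0 < k0 := by linarith
  have hκ : 0 < κ := by linarith
  have hx : 0 < k0 / κ := div_pos hk0 hκ
  have hx1 : k0 / κ ≤ 1 := by
    rw [div_le_one hκ]
    linarith
  have hθpos : 0 < θ := by
    rw [hθ]
    exact Real.sqrt_pos.2 (Real.sqrt_pos.2 hx)
  have hθ4 : θ ^ 4 = k0 / κ := by
    rw [hθ]
    exact parc_pow4 _ hx.le
  have hθ1 : θ ≤ 1 := by
    by_contra hcon
    push Not at hcon
    have h4 : (1 : ℝ) < θ ^ 4 := one_lt_pow₀ hcon (by norm_num)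
    linarith
  have hκ'1 : 31 / 32 * k0 ≤ κ' := by
    have h5 : 31 / 32 * κ / 2 ≤ (1 - θ / 32) * κ / 2 := by
      have h6 : 31 / 32 * κ ≤ (1 - θ / 32) * κ :=
        mul_le_mul_of_nonneg_right (by linarith) hκ.le
      linarith
    linarith
  have hκ'pos : 0 < κ' := by linarith
  have hx' : 0 < k0 / κ' := div_pos hk0 hκ'pos
  have hθ'pos : 0 < θ' := by
    rw [hθ']
    exact Real.sqrt_pos.2 (Real.sqrt_pos.2 hx')
  have hθ'4 : θ' ^ 4 = k0 / κ' := by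
    rw [hθ']
    exact parc_pow4 _ hx'.le
  have hθ'2 : θ' ≤ 2 := by
    by_contra hcon
    push Not at hcon
    have h4 : (2 : ℝ) ^ 4 < θ' ^ 4 := pow_lt_pow_left₀ hcon (by norm_num) (by norm_num)
    rw [hθ'4, lt_div_iff₀ hκ'pos] at h4
    linarith
  have hcmp : 118 / 100 * θ ≤ θ' := by
    have h7 : (118 / 100 * θ) ^ 4 ≤ θ' ^ 4 := by
      rw [mul_pow, hθ4, hθ'4, ← mul_div_assoc, div_le_div_iff₀ hκ hκ'pos]
      have h8 : ((118 : ℝ) / 100) ^ 4 * κ' ≤ κ := by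
        have h9 : ((118 : ℝ) / 100) ^ 4 ≤ 194 / 100 := by norm_num
        have h10 : ((118 : ℝ) / 100) ^ 4 * κ' ≤ 194 / 100 * κ' :=
          mul_le_mul_of_nonneg_right h9 hκ'pos.le
        linarith
      calc ((118 : ℝ) / 100) ^ 4 * k0 * κ' = k0 * (((118 : ℝ) / 100) ^ 4 * κ') := by ring
        _ ≤ k0 * κ := mul_le_mul_of_nonneg_left h8 hk0.le
    exact le_of_pow_le_pow_left₀ (by norm_num) hθ'pos.le h7
  refine ⟨hθpos, hθ1, by linarith, ?_, hκ'1, by linarith⟩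
  nlinarith [mul_pos hθpos hθpos]

end Wn
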