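import Pool.Agent.Work.MP_959bfa_wn.Interface2

namespace Wn

open Finset

theorem one_sub {n : ℕ} (P : Fin n → ℝ × ℝ) (B : Finset (Fin n)) :
    ∃ P' : Fin B.card → ℝ × ℝ, ∀ R : Bx, (inds P' R).card = ((inds P R) ∩ B).card := by
  classical
  refine ⟨fun i => P (B.equivFin.symm i), fun R => ?_⟩
  have hinj : Function.Injective (fun i : Fin B.card => ((B.equivFin.symm i : B) : Fin n)) :=
    fun i j h => B.equivFin.symm.injective (Subtype.ext h)
  rw [← Finset.card_image_of_injective (inds _ R) hinj]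
  congr 1
  ext x
  simp only [mem_image, mem_inter, inds, mem_fl, mem_univ, true_and]
  constructor
  · rintro ⟨i, hi, rfl⟩
    exact ⟨hi, (B.equivFin.symm i).2⟩
  · rintro ⟨hx, hB⟩
    refine ⟨B.equivFin ⟨x, hB⟩, ?_, ?_⟩
    · simpa using hx
    · simp

theorem one_pack {n M κ : ℕ} (P : Fin n → ℝ × ℝ) (Q : Fin M → Bx)
    (hQ : ∀ a b, a ≠ b → Dj (Q a) (Q b)) (hκ : ∀ a, κ ≤ (inds P (Q a)).card) : M * κ ≤ n := by
  classical
  have h1 : (univ.biUnion (fun a => inds P (Q a))).card = ∑ a, (inds P (Q a)).card := by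
    refine Finset.card_biUnion (fun a _ b _ hab => ?_)
    refine Finset.disjoint_left.2 (fun x hx hx' => ?_)
    exact hQ a b hab _ _ ⟨(mem_fl.1 hx).2, (mem_fl.1 hx').2⟩
  have h2 : (univ.biUnion (fun a => inds P (Q a))).card ≤ n :=
    (Finset.card_le_univ _).trans (by simp)
  have h3 : M * κ ≤ ∑ a : Fin M, (inds P (Q a)).card := by
    calc M * κ = ∑ _a : Fin M, κ := by simp
      _ ≤ _ := Finset.sum_le_sum (fun a _ => hκ a)
  omega

theorem one_all {n : ℕ} (P : Fin n → ℝ × ℝ) : ∃ Z : Finset (ℝ × ℝ), Z.card ≤ n ∧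
    ∀ R : Bx, 1 ≤ (inds P R).card → ∃ z ∈ Z, In R z.1 z.2 := by
  classical
  refine ⟨univ.image P, card_image_le.trans (by simp), fun R h => ?_⟩
  obtain ⟨i, hi⟩ := card_pos.1 h
  exact ⟨P i, mem_image_of_mem _ (mem_univ i), (mem_fl.1 hi).2⟩

theorem one_th2 (k0 κ : ℝ) (hk0 : 0 < k0) (hκ : 0 < κ) :
    (Real.sqrt (Real.sqrt (k0 / κ))) ^ 2 * κ = Real.sqrt (k0 * κ) := by
  rw [Real.sq_sqrt (Real.sqrt_nonneg _)]
  have h1 : κ = Real.sqrt (κ ^ 2) := (Real.sqrt_sq hκ.le).symm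
  have h2 : Real.sqrt (k0 / κ) * Real.sqrt (κ ^ 2) = Real.sqrt (k0 / κ * κ ^ 2) :=
    (Real.sqrt_mul (div_pos hk0 hκ).le _).symm
  have h3 : k0 / κ * κ ^ 2 = k0 * κ := by
    field_simp
  rw [h3] at h2
  rw [← h2, ← h1]

theorem one_claim (hSORT : stmt_SORT) (hHALV : stmt_HALV) (hGAP : stmt_GAP) (hPARC : stmt_PARC)
    (F μ k0 : ℝ) (hF : 1 ≤ F) (hμ : 1 ≤ μ) (hk3 : 1000 ≤ k0)
    (hA : ∀ (n κ M : ℕ), k0 ≤ κ → 1 ≤ M → M * κ ≤ n →
      Real.exp (-(Real.sqrt (k0 * κ) / 2 ^ 15)) * (n / κ) ≤ M →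
      ((∑ j ∈ range (4 * M + 1), n.choose j * 8 ^ j : ℕ) : ℝ) *
        Real.exp (-(M * (Real.sqrt (k0 * κ) / 2048))) < 1 / 2)
    (hB : ∀ (n κ : ℕ), k0 ≤ κ → 1 ≤ n → (n : ℝ) ≤ 4 * μ * κ →
      ∃ (c w : ℕ) (L : ℝ), DB w c ∧ 1 ≤ c ∧ 1 ≤ L ∧ 5 * L ≤ w ∧
      (w : ℝ) ≤ 6 * L ∧ 2 * Real.log n ≤ L ∧
      12 * F * (c : ℝ) * Real.exp (-(Real.sqrt (k0 * κ) / 2 ^ 15)) ≤
        k0 * Real.sqrt (Real.sqrt (k0 / κ)) / 8)
    (hN : Nets F (2 * μ)) :
    ∀ κ : ℕ, ∀ (n : ℕ) (P : Fin n → ℝ × ℝ), 31 / 32 * k0 ≤ κ →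
      (n : ℝ) * (2 - Real.sqrt (Real.sqrt (k0 / κ))) ≤ 2 * μ * κ →
      ∃ Z : Finset (ℝ × ℝ),
        (Z.card : ℝ) ≤ 5 / 2 * k0 * (2 - Real.sqrt (Real.sqrt (k0 / κ))) * (n / κ) ∧
        ∀ R : Bx, κ ≤ (inds P R).card → ∃ z ∈ Z, In R z.1 z.2 := by
  classical
  intro κ
  induction κ using Nat.strong_induction_on with
  | _ κ IH =>
    intro n P₀ hκ0 hn
    have hk0 : 0 < k0 := by linarith
    have hκpos : (0 : ℝ) < κ := by linarith
    have hκ1 : 1 ≤ κ := by
      have h : (0 : ℝ) < κ := hκpos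
      exact Nat.one_le_iff_ne_zero.2 (fun h0 => by rw [h0] at h; simp at h)
    -- small κ
    by_cases hsmall : (κ : ℝ) < 2 * k0
    · obtain ⟨Z, hZ1, hZ2⟩ := one_all P₀
      refine ⟨Z, ?_, fun R hR => hZ2 R (hκ1.trans hR)⟩
      have hx : 0 < k0 / κ := div_pos hk0 hκpos
      have hth : Real.sqrt (Real.sqrt (k0 / κ)) ≤ 11 / 10 := by
        rw [show (11 / 10 : ℝ) = Real.sqrt (Real.sqrt ((11 / 10) ^ 4)) by
          rw [show ((11 : ℝ) / 10) ^ 4 = ((11 / 10) ^ 2) ^ 2 by norm_num,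
            Real.sqrt_sq (by norm_num), Real.sqrt_sq (by norm_num)]]
        apply Real.sqrt_le_sqrt
        apply Real.sqrt_le_sqrt
        rw [div_le_iff₀ hκpos]
        have h1 : (1 : ℝ) ≤ (11 / 10) ^ 4 * (31 / 32) := by norm_num
        have h2 : ((11 : ℝ) / 10) ^ 4 * (31 / 32 * k0) ≤ (11 / 10) ^ 4 * κ :=
          mul_le_mul_of_nonneg_left hκ0 (by norm_num)
        have h3 : 1 * k0 ≤ (11 / 10) ^ 4 * (31 / 32) * k0 :=
          mul_le_mul_of_nonneg_right h1 hk0.le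
        linarith
      have hn0 : (0 : ℝ) ≤ n := Nat.cast_nonneg n
      have h4 : (Z.card : ℝ) ≤ n := by exact_mod_cast hZ1
      refine h4.trans ?_
      have h5 : (1 : ℝ) ≤ 5 / 2 * k0 * (2 - Real.sqrt (Real.sqrt (k0 / κ))) / κ := by
        rw [le_div_iff₀ hκpos]
        have h6 : 5 / 2 * k0 * (9 / 10) ≤ 5 / 2 * k0 * (2 - Real.sqrt (Real.sqrt (k0 / κ))) :=
          mul_le_mul_of_nonneg_left (by linarith) (by linarith)
        linarith
      calc (n : ℝ) = 1 * n := (one_mul _).symm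
        _ ≤ 5 / 2 * k0 * (2 - Real.sqrt (Real.sqrt (k0 / κ))) / κ * n :=
          mul_le_mul_of_nonneg_right h5 hn0
        _ = _ := by ring
    · push Not at hsmall
      obtain ⟨σ, hsrt, hσ⟩ := hSORT n P₀
      set P := P₀ ∘ σ with hP
      set θ := Real.sqrt (Real.sqrt (k0 / κ)) with hθ
      -- the empty case
      by_cases hn0 : n = 0
      · refine ⟨∅, ?_, ?_⟩
        · rw [hn0]
          simp
        · intro R hR
          have h1 : (inds P₀ R).card ≤ n := (Finset.card_le_univ _).trans (by simp)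
          omega
      have hn1 : 1 ≤ n := Nat.one_le_iff_ne_zero.2 hn0
      have hnpos : (0 : ℝ) < n := by exact_mod_cast hn1
      set κ' : ℕ := ⌈(1 - θ / 32) * κ / 2⌉₊ with hκ'
      have hx : 0 < k0 / κ := div_pos hk0 hκpos
      have hθnn : 0 ≤ θ := Real.sqrt_nonneg _
      have hκ'low : (1 - θ / 32) * κ / 2 ≤ κ' := Nat.le_ceil _
      have hθle : θ ≤ 1 := by
        rw [hθ]
        have h1 : k0 / κ ≤ 1 := by
          rw [div_le_one hκpos]
          linarith
        have h2 : Real.sqrt (k0 / κ) ≤ 1 := by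
          rw [← Real.sqrt_one]
          exact Real.sqrt_le_sqrt h1
        rw [← Real.sqrt_one]
        exact Real.sqrt_le_sqrt h2
      have hκ'up : (κ' : ℝ) ≤ κ / 2 + 1 := by
        have h1 : 0 ≤ (1 - θ / 32) * κ / 2 := by
          have h2 : 0 ≤ (1 - θ / 32) * κ := mul_nonneg (by linarith) hκpos.le
          linarith
        have h3 := (Nat.ceil_lt_add_one h1).le
        have h4 : (1 - θ / 32) * κ ≤ 1 * κ := mul_le_mul_of_nonneg_right (by linarith) hκpos.le
        have h5 : (1 - θ / 32) * κ / 2 + 1 ≤ κ / 2 + 1 := by linarith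
        exact h3.trans h5
      obtain ⟨hθpos, _, hθ'2, hmain, hκ'k0, hκ'lt⟩ :=
        hPARC k0 κ κ' θ (Real.sqrt (Real.sqrt (k0 / κ'))) hk3 hsmall hκ'up hκ'low rfl rfl
      have hκ'pos : (0 : ℝ) < κ' := by linarith
      set r := Real.sqrt (k0 * κ) with hr
      set ν : ℕ := ⌊Real.exp (-(r / 2 ^ 15)) * (n / κ)⌋₊ with hν
      have hM : Real.exp (-(r / 2 ^ 15)) * (n / κ) ≤ ((ν + 1 : ℕ) : ℝ) := by
        push_cast
        exact (Nat.lt_floor_add_one _).le
      have hνle : (ν : ℝ) ≤ Real.exp (-(r / 2 ^ 15)) * (n / κ) :=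
        Nat.floor_le (by positivity)
      -- the half
      have hhalf : ∃ B : Finset (Fin n), 2 * B.card ≤ n ∧
          ¬ ∃ Q : Fin (ν + 1) → Bx, (∀ a b, a ≠ b → Dj (Q a) (Q b)) ∧
          ∀ a, κ ≤ (inds P (Q a)).card ∧
            (((inds P (Q a)) ∩ B).card : ℝ) < (1 - θ / 32) * κ / 2 := by
        by_cases hMκ : (ν + 1) * κ ≤ n
        · refine hHALV n (ν + 1) κ P (θ / 32) hsrt (by linarith) (by linarith) (by omega) hκ1 ?_
          have h1 := hA n κ (ν + 1) (by linarith) (by omega) hMκ hM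
          have h2 : (θ / 32) ^ 2 * (((ν + 1 : ℕ) : ℝ) * κ) / 2 =
              ((ν + 1 : ℕ) : ℝ) * (r / 2048) := by
            have h3 := one_th2 k0 κ hk0 hκpos
            rw [← hθ, ← hr] at h3
            rw [← h3]
            ring
          rw [h2]
          exact h1
        · refine ⟨∅, by simp, ?_⟩
          rintro ⟨Q, hQ, hQ2⟩
          exact hMκ (one_pack P Q hQ (fun a => (hQ2 a).1))
      obtain ⟨B, hBn, hBQ⟩ := hhalf
      obtain ⟨P', hP'⟩ := one_sub P B
      have hBn' : (B.card : ℝ) ≤ n / 2 := by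
        have h1 : ((2 * B.card : ℕ) : ℝ) ≤ n := by exact_mod_cast hBn
        push_cast at h1
        linarith
      have hf1 : 0 < 1 - θ / 32 := by linarith
      -- induction hypothesis
      have hIH : ∃ Z : Finset (ℝ × ℝ),
          (Z.card : ℝ) ≤ 5 / 2 * k0 * (2 - Real.sqrt (Real.sqrt (k0 / κ'))) * (B.card / κ') ∧
          ∀ R : Bx, κ' ≤ (inds P' R).card → ∃ z ∈ Z, In R z.1 z.2 := by
        refine IH κ' (by exact_mod_cast hκ'lt) B.card P' hκ'k0 ?_
        calc (B.card : ℝ) * (2 - Real.sqrt (Real.sqrt (k0 / κ')))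
            ≤ n / 2 * (2 - Real.sqrt (Real.sqrt (k0 / κ'))) :=
              mul_le_mul_of_nonneg_right hBn' hθ'2
          _ ≤ n / 2 * ((1 - θ / 32) * (2 - (11 / 10) * θ)) :=
              mul_le_mul_of_nonneg_left hmain (by linarith)
          _ ≤ n / 2 * ((1 - θ / 32) * (2 - θ)) := by
              apply mul_le_mul_of_nonneg_left _ (by linarith)
              apply mul_le_mul_of_nonneg_left _ hf1.le
              linarith
          _ = (1 - θ / 32) * (n * (2 - θ)) / 2 := by ring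
          _ ≤ (1 - θ / 32) * (2 * μ * κ) / 2 := by
              have h1 := mul_le_mul_of_nonneg_left hn hf1.le
              linarith
          _ = 2 * μ * ((1 - θ / 32) * κ / 2) := by ring
          _ ≤ 2 * μ * κ' := mul_le_mul_of_nonneg_left hκ'low (by linarith)
      obtain ⟨Z1, hZ1, hZ1'⟩ := hIH
      have hZ1b : (Z1.card : ℝ) ≤ 5 / 2 * k0 * (2 - 11 / 10 * θ) * (n / κ) := by
        refine hZ1.trans ?_
        have h1 : (B.card : ℝ) / κ' ≤ (n / 2) / ((1 - θ / 32) * κ / 2) := by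
          apply div_le_div₀ (by linarith) hBn' _ hκ'low
          have h2 : 0 < (1 - θ / 32) * κ := mul_pos hf1 hκpos
          linarith
        have h3 : (0 : ℝ) ≤ (n / 2) / ((1 - θ / 32) * κ / 2) := by
          apply div_nonneg (by linarith)
          have h2 : 0 < (1 - θ / 32) * κ := mul_pos hf1 hκpos
          linarith
        calc 5 / 2 * k0 * (2 - Real.sqrt (Real.sqrt (k0 / κ'))) * (B.card / κ')
            ≤ 5 / 2 * k0 * (2 - Real.sqrt (Real.sqrt (k0 / κ'))) *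
                ((n / 2) / ((1 - θ / 32) * κ / 2)) :=
              mul_le_mul_of_nonneg_left h1 (mul_nonneg (by linarith) hθ'2)
          _ ≤ 5 / 2 * k0 * ((1 - θ / 32) * (2 - (11 / 10) * θ)) *
                ((n / 2) / ((1 - θ / 32) * κ / 2)) := by
              apply mul_le_mul_of_nonneg_right _ h3
              exact mul_le_mul_of_nonneg_left hmain (by linarith)
          _ = 5 / 2 * k0 * (2 - 11 / 10 * θ) * (n / κ) := by
              have hne : (1 - θ / 32) ≠ 0 := hf1.ne'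
              have hne2 : (32 - θ) ≠ 0 := by
                have h4 : 0 < 32 - θ := by linarith
                exact h4.ne'
              field_simp
      -- the gap
      have hgap : ∃ Z2 : Finset (ℝ × ℝ), (Z2.card : ℝ) ≤ k0 * θ / 8 * (n / κ) ∧
          ∀ R : Bx, (κ ≤ (inds P R).card ∧
            (((inds P R) ∩ B).card : ℝ) < (1 - θ / 32) * κ / 2) → ∃ z ∈ Z2, In R z.1 z.2 := by
        by_cases hν0 : ν = 0
        · refine ⟨∅, ?_, ?_⟩
          · have h1 : 0 ≤ k0 * θ / 8 * (n / κ) := by positivity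
            simpa using h1
          · intro R hR
            exfalso
            apply hBQ
            refine ⟨fun _ => R, ?_, fun _ => hR⟩
            intro a b hab
            exfalso
            apply hab
            apply Fin.ext
            have := a.2
            have := b.2
            omega
        · have hnμ : (n : ℝ) ≤ 2 * μ * κ := by
            refine le_trans ?_ hn
            have h1 : (n : ℝ) * 1 ≤ n * (2 - θ) :=
              mul_le_mul_of_nonneg_left (by linarith) hnpos.le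
            linarith
          obtain ⟨c, w, L, hDB, hc1, hl3, hl4, hl5, hl6, hl7⟩ :=
            hB n κ (by linarith) hn1 (by
              have h1 : 0 ≤ 2 * μ * κ := by positivity
              linarith)
          obtain ⟨Z2, hZ2, hZ2'⟩ := hGAP F (2 * μ) (by linarith) hN c w L hDB
            hc1 hl3 hl4 hl5 n κ P hκ1 hnμ hl6
            (fun I => κ ≤ I.card ∧ ((I ∩ B).card : ℝ) < (1 - θ / 32) * κ / 2)
            (fun I hI => hI.1) ν (Nat.one_le_iff_ne_zero.2 hν0) (by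
              intro Q hQ
              by_contra hcon
              push Not at hcon
              exact hBQ ⟨Q, hQ, hcon⟩)
          refine ⟨Z2, hZ2.trans ?_, hZ2'⟩
          calc 12 * F * (c : ℝ) * (ν : ℝ)
              ≤ 12 * F * (c : ℝ) * (Real.exp (-(r / 2 ^ 15)) * (n / κ)) :=
                mul_le_mul_of_nonneg_left hνle (by positivity)
            _ = 12 * F * (c : ℝ) * Real.exp (-(r / 2 ^ 15)) * (n / κ) := by ring
            _ ≤ k0 * θ / 8 * (n / κ) :=
                mul_le_mul_of_nonneg_right hl7 (by positivity)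
      obtain ⟨Z2, hZ2, hZ2'⟩ := hgap
      refine ⟨Z1 ∪ Z2, ?_, ?_⟩
      · have h1 : ((Z1 ∪ Z2).card : ℝ) ≤ Z1.card + Z2.card := by
          exact_mod_cast Finset.card_union_le Z1 Z2
        have h2 : (0 : ℝ) ≤ n / κ := by positivity
        have h3 : 5 / 2 * k0 * (2 - 11 / 10 * θ) * (n / κ) + k0 * θ / 8 * (n / κ) ≤
            5 / 2 * k0 * (2 - θ) * (n / κ) := by
          rw [← add_mul]
          apply mul_le_mul_of_nonneg_right _ h2
          have h4 : 0 ≤ k0 * θ := by positivity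
          nlinarith
        linarith
      · intro R hR
        have hR' : κ ≤ (inds P R).card := by
          rw [hσ R]
          exact hR
        by_cases hc : (((inds P R) ∩ B).card : ℝ) < (1 - θ / 32) * κ / 2
        · obtain ⟨z, hz, hz2⟩ := hZ2' R ⟨hR', hc⟩
          exact ⟨z, mem_union_right _ hz, hz2⟩
        · push Not at hc
          have h1 : κ' ≤ (inds P' R).card := by
            rw [hP' R]
            exact Nat.ceil_le.2 hc
          obtain ⟨z, hz, hz2⟩ := hZ1' R h1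
          exact ⟨z, mem_union_left _ hz, hz2⟩

theorem ONE2 (hSORT : stmt_SORT) (hHALV : stmt_HALV) (hGAP : stmt_GAP) (hTHC : stmt_THC)
    (hPARA : stmt_PARA) (hPARB2 : stmt_PARB2) (hPARC : stmt_PARC) : stmt_ONE2 := by
  obtain ⟨C, hC1, hTHC⟩ := hTHC
  obtain ⟨K1, hK1, hA⟩ := hPARA
  obtain ⟨K2, hK2, hB⟩ := hPARB2 C hC1
  refine ⟨max (max K1 K2) 1000, le_max_of_le_right (by norm_num), ?_⟩
  intro F μ k0 hF hμ hk0 hFk hμk hN
  have hm1 : K1 ≤ max (max K1 K2) 1000 := (le_max_left _ _).trans (le_max_left _ _)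
  have hm2 : K2 ≤ max (max K1 K2) 1000 := (le_max_right _ _).trans (le_max_left _ _)
  have hm3 : (1000 : ℝ) ≤ max (max K1 K2) 1000 := le_max_right _ _
  have hk1 : K1 ≤ k0 := hm1.trans hk0
  have hk2 : K2 ≤ k0 := hm2.trans hk0
  have hk3 : 1000 ≤ k0 := hm3.trans hk0
  have hk0pos : 0 < k0 := by linarith
  have hFk2 : K2 * Real.log F ≤ k0 :=
    (mul_le_mul_of_nonneg_right hm2 (Real.log_nonneg hF)).trans hFk
  have hlogμ : 0 ≤ Real.log μ := Real.log_nonneg hμ
  have hlogμ2 : 0 ≤ Real.log (1 + Real.log μ) := Real.log_nonneg (by linarith)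
  have hμk2 : K2 * Real.log (1 + Real.log (1 + Real.log μ)) ≤ k0 :=
    (mul_le_mul_of_nonneg_right hm2 (Real.log_nonneg (by linarith))).trans hμk
  have claim := one_claim hSORT hHALV hGAP hPARC F μ k0 hF hμ hk3
    (fun n κ M h1 h2 h3 h4 => hA k0 n κ M hk1 h1 h2 h3 h4)
    (fun n κ h1 h2 h3 => by
      obtain ⟨w, L, h4, h5, h6, h7, h8⟩ := hB F μ k0 n κ hF hμ hk2 h1 hFk2 hμk2 h2 h3
      exact ⟨C * (Nat.log 2 w + 1) ^ 2, w, L, hTHC w,
        Nat.succ_le_of_lt (Nat.mul_pos hC1 (by positivity)), h4, h5, h6, h7, h8⟩) hN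
  intro n k P hk hn
  have hkpos : (0 : ℝ) < k := by exact_mod_cast hk
  have hnn : (0 : ℝ) ≤ n := Nat.cast_nonneg n
  by_cases hbig : 31 / 32 * k0 ≤ k
  · have hth : 0 ≤ Real.sqrt (Real.sqrt (k0 / k)) := Real.sqrt_nonneg _
    obtain ⟨Z, hZ1, hZ2⟩ := claim k n P hbig (by
      have h1 : (n : ℝ) * (2 - Real.sqrt (Real.sqrt (k0 / k))) ≤ n * 2 :=
        mul_le_mul_of_nonneg_left (by linarith) hnn
      linarith)
    refine ⟨Z, hZ1.trans ?_, hZ2⟩
    apply mul_le_mul_of_nonneg_right _ (div_nonneg hnn hkpos.le)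
    have h2 : 5 / 2 * k0 * (2 - Real.sqrt (Real.sqrt (k0 / k))) ≤ 5 / 2 * k0 * 2 :=
      mul_le_mul_of_nonneg_left (by linarith) (by linarith)
    linarith
  · push Not at hbig
    obtain ⟨Z, hZ1, hZ2⟩ := one_all P
    refine ⟨Z, ?_, fun R hR => hZ2 R (hk.trans hR)⟩
    have h1 : (Z.card : ℝ) ≤ n := by exact_mod_cast hZ1
    refine h1.trans ?_
    rw [← mul_div_assoc, le_div_iff₀ hkpos]
    have h2 : (n : ℝ) * k ≤ n * (6 * k0) := mul_le_mul_of_nonneg_left (by linarith) hnn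
    linarith

end Wn
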